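import Pool.Agent.L0h87.LE.StmH

/-! # LE/INF (helper33): `h m + b = ⊤ ↔ h m = ⊤` -/

set_option autoImplicit false

namespace Pool.Agent.L0h33.LE

open Finset Filter Topology
open Pool.Agent.L0h87.LE

open Classical in
/-- a sum which vanishes at almost all `i` -/
theorem sum_of_AA {P : ℕ → Prop} (h : AA P) (F : ℕ → ℝ) (h0 : ∀ i, P i → F i = 0)
    (h1 : ∀ i, F i ≤ 1) (ε : ℝ) (hε : 0 < ε) :
    ∃ I₀ : ℕ, ∀ I : ℕ, I₀ ≤ I → ∑ i ∈ range I, F i ≤ ε * I := by
  obtain ⟨I₀, hI⟩ := h ε hε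
  refine ⟨I₀, fun I hI' => le_trans ?_ (hI I hI')⟩
  rw [← Finset.sum_filter_add_sum_filter_not (range I) P F,
    Finset.sum_eq_zero (fun i hi => h0 i (mem_filter.1 hi).2), zero_add]
  calc ∑ i ∈ (range I).filter (fun i => ¬ P i), F i
      ≤ ∑ i ∈ (range I).filter (fun i => ¬ P i), (1 : ℝ) := Finset.sum_le_sum fun i _ => h1 i
    _ = _ := by rw [Finset.sum_const, nsmul_eq_mul, mul_one]

open Classical in
theorem INF : Pool.Agent.L0h87.LE.INF := by
  intro h hNB v a b _ M hM s hs ε hε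
  have key : ∀ x y : ℕ∞, |((if x = ⊤ then (1 : ℝ) else 0) - v) - ((if y = ⊤ then 1 else 0) - v)| ≤ 1 := by
    intro x y
    split_ifs <;> rw [abs_le] <;> constructor <;> linarith
  rcases hM with rfl | rfl
  · refine sum_of_AA ((hNB a b).1 s hs) _ (fun i hi => ?_) (fun i => key _ _) ε hε
    simp only [hi, sub_self, abs_zero]
  · refine sum_of_AA ((hNB a b).2 s hs) _ (fun i hi => ?_) (fun i => key _ _) ε hε
    have h2 : h (2 * 3 ^ b * i + 2 * s + 1) = ⊤ ↔ h (2 * 2 ^ a * i + 1) = ⊤ := by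
      rw [← hi]
      simp
    simp only [h2, sub_self, abs_zero]

end Pool.Agent.L0h33.LE
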